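import Pool.Agent.H23.DM.TargetsQ
import Pool.Agent.H23.SM.Targets
import Pool.Agent.H63.SWL.Common

/-!
# The mean square over families of boxes and cosets: row Q2
-/

set_option autoImplicit false

open NumberField NumberField.InfinitePlace MeasureTheory

namespace Pool.Agent.H55.DM.Q2

open Pool.Agent.H25.HK Pool.Agent.H23.LB Pool.Agent.H23.LC Pool.Agent.H23.DM
open Pool.Agent.H27.TM (Cls)
open Pool.Agent.H29.DW (Rl Pos rv)
open Pool.Agent.H29.TC (cq)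
open Pool.Agent.H31.SW (DD PP dK Pf)
open Pool.Agent.H63.SWL (PP_pos PP_nonneg one_le_PP PP_mono PP_mul)

/-- the local inequality -/
theorem loc (H τ : ℝ) (hH : 1 ≤ H) (hτ : 1 ≤ τ) :
    1 ≤ min H (τ ^ (1 / 3 : ℝ)) ∧ min H (τ ^ (1 / 3 : ℝ)) ^ 3 ≤ τ ∧
    Real.sqrt (H / min H (τ ^ (1 / 3 : ℝ))) * τ * (H * H) ≤
      max τ (H ^ 3) * (min H (τ ^ (1 / 3 : ℝ)) * min H (τ ^ (1 / 3 : ℝ))) := by
  obtain ⟨g, hg⟩ : ∃ g : ℝ, g = τ ^ (1 / 3 : ℝ) := ⟨_, rfl⟩
  have hg1 : 1 ≤ g := by rw [hg]; exact Real.one_le_rpow hτ (by norm_num)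
  have hg3 : g ^ 3 = τ := by
    rw [hg, ← Real.rpow_natCast, ← Real.rpow_mul (by linarith)]
    norm_num
  rw [← hg]
  refine ⟨le_min hH hg1, ?_, ?_⟩
  · calc min H g ^ 3 ≤ g ^ 3 := pow_le_pow_left₀ (le_min (by linarith) (by linarith))
          (min_le_right _ _) 3
      _ = τ := hg3
  · rcases le_total H g with h | h
    · rw [min_eq_left h, div_self (by linarith), Real.sqrt_one, one_mul]
      exact mul_le_mul_of_nonneg_right (le_max_left _ _) (by positivity)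
    · rw [min_eq_right h]
      have h1 : 1 ≤ H / g := by
        rw [le_div_iff₀ (by linarith), one_mul]
        exact h
      have h2 : Real.sqrt (H / g) ≤ H / g := by
        rw [Real.sqrt_le_left (by linarith)]
        nlinarith
      calc Real.sqrt (H / g) * τ * (H * H) ≤ H / g * τ * (H * H) := by gcongr
        _ = H ^ 3 * (g * g) := by
            rw [← hg3]
            field_simp
        _ ≤ max τ (H ^ 3) * (g * g) :=
            mul_le_mul_of_nonneg_right (le_max_right _ _) (by positivity)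

/-- the bounds `QB` for the radii `G` and `H` -/
theorem QB_le {K : Type} [Field K] [NumberField K] (k κ : Ideal (𝓞 K))
    (τ H : InfinitePlace K → ℝ) (h : ∀ v, 1 ≤ H v ∧ 1 ≤ τ v) (R R' C : ℝ) (hR : 0 ≤ R)
    (hC : 1 ≤ C)
    (hRR : R' ≤ R * (C * (PP H / PP (fun v => min (H v) (τ v ^ (1 / 3 : ℝ)))))) :
    QB k κ τ (fun v => min (H v) (τ v ^ (1 / 3 : ℝ))) R' ≤ C * QB k κ τ H R := by
  obtain ⟨G, hG⟩ : ∃ G : InfinitePlace K → ℝ, G = fun v => min (H v) (τ v ^ (1 / 3 : ℝ)) :=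
    ⟨_, rfl⟩
  rw [← hG] at hRR ⊢
  have hl : ∀ v, 1 ≤ G v ∧ G v ^ 3 ≤ τ v ∧
      Real.sqrt (H v / G v) * τ v * (H v * H v) ≤ max (τ v) (H v ^ 3) * (G v * G v) := fun v => by
    rw [hG]
    exact loc (H v) (τ v) (h v).1 (h v).2
  have hG0 : ∀ v, 0 < G v := fun v => by linarith [(hl v).1]
  have hH0 : ∀ v, 0 < H v := fun v => by linarith [(h v).1]
  have hPG := PP_pos hG0
  have hPH := PP_pos hH0
  obtain ⟨s, hs⟩ : ∃ s : InfinitePlace K → ℝ, s = fun v => Real.sqrt (H v / G v) := ⟨_, rfl⟩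
  have hs0 : ∀ v, 0 ≤ s v := fun v => by rw [hs]; exact Real.sqrt_nonneg _
  have hPs : 0 ≤ PP s := PP_nonneg hs0
  have hsq : PP H / PP G = PP s * PP s := by
    rw [← PP_mul, div_eq_iff hPG.ne', ← PP_mul]
    congr 1
    funext v
    rw [hs]
    simp only
    rw [Real.mul_self_sqrt (div_nonneg (hH0 v).le (hG0 v).le)]
    field_simp [(hG0 v).ne']
  have hmax : PP (fun v => max (τ v) (G v ^ 3)) = PP τ := by
    congr 1
    funext v
    exact max_eq_left (hl v).2.1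
  have hloc : PP s * PP τ * (PP H * PP H) ≤
      PP (fun v => max (τ v) (H v ^ 3)) * (PP G * PP G) := by
    rw [← PP_mul, ← PP_mul, ← PP_mul, ← PP_mul, ← PP_mul]
    refine PP_mono (fun v => ?_) fun v => ?_
    · have h1 := hs0 v
      have h2 := (h v).2
      have h3 := hH0 v
      positivity
    · have := (hl v).2.2
      rw [hs]
      exact this
  obtain ⟨Mx, hMx⟩ : ∃ Mx : ℝ, Mx = PP (fun v => max (τ v) (H v ^ 3)) := ⟨_, rfl⟩
  have hMx0 : 0 ≤ Mx := by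
    rw [hMx]
    exact PP_nonneg fun v => le_max_of_le_left (by linarith [(h v).2])
  unfold QB
  rw [hmax, ← hMx]
  rw [← hMx] at hloc
  rw [hsq] at hRR
  have hκ : 0 ≤ Nf K κ := by unfold Nf; exact Nat.cast_nonneg _
  have hk : 0 ≤ Nf K k := by unfold Nf; exact Nat.cast_nonneg _
  have hC0 : 0 ≤ C := by linarith
  -- the root of the number of the labels
  have hroot : R' ^ (1 / 2 : ℝ) ≤ C * (R ^ (1 / 2 : ℝ) * PP s) := by
    rw [← Real.sqrt_eq_rpow, ← Real.sqrt_eq_rpow]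
    have h1 : R' ≤ (C * (Real.sqrt R * PP s)) ^ 2 := by
      refine hRR.trans ?_
      rw [mul_pow, mul_pow, Real.sq_sqrt hR]
      have h2 : C ≤ C ^ 2 := le_self_pow₀ hC (by norm_num)
      calc R * (C * (PP s * PP s)) = C * (R * PP s ^ 2) := by ring
        _ ≤ C ^ 2 * (R * PP s ^ 2) := by gcongr
    calc Real.sqrt R' ≤ Real.sqrt ((C * (Real.sqrt R * PP s)) ^ 2) := Real.sqrt_le_sqrt h1
      _ = C * (Real.sqrt R * PP s) := Real.sqrt_sq (by positivity)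
  have hfirst : R' * (Nf K κ * PP G) ≤ C * (R * (Nf K κ * PP H)) := by
    have h1 : PP s * PP s * PP G = PP H := by
      rw [← hsq]
      field_simp
    calc R' * (Nf K κ * PP G) ≤ R * (C * (PP s * PP s)) * (Nf K κ * PP G) := by gcongr
      _ = C * (R * (Nf K κ * (PP s * PP s * PP G))) := by ring
      _ = _ := by rw [h1]
  have hsecond : R' ^ (1 / 2 : ℝ) * (Nf K k * PP τ / (Nf K κ * PP G) ^ 2) ≤
      C * (R ^ (1 / 2 : ℝ) * (Nf K k * Mx / (Nf K κ * PP H) ^ 2)) := by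
    have h0 : PP s * PP τ / PP G ^ 2 ≤ Mx / PP H ^ 2 := by
      rw [div_le_div_iff₀ (by positivity) (by positivity)]
      calc PP s * PP τ * PP H ^ 2 = PP s * PP τ * (PP H * PP H) := by ring
        _ ≤ Mx * (PP G * PP G) := hloc
        _ = Mx * PP G ^ 2 := by ring
    have hτ0 : 0 ≤ PP τ := PP_nonneg fun v => by linarith [(h v).2]
    have hRr : 0 ≤ R ^ (1 / 2 : ℝ) := Real.rpow_nonneg hR _
    calc R' ^ (1 / 2 : ℝ) * (Nf K k * PP τ / (Nf K κ * PP G) ^ 2) ≤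
          C * (R ^ (1 / 2 : ℝ) * PP s) * (Nf K k * PP τ / (Nf K κ * PP G) ^ 2) := by gcongr
      _ = C * (R ^ (1 / 2 : ℝ) * (Nf K k / Nf K κ ^ 2 * (PP s * PP τ / PP G ^ 2))) := by
          rw [mul_pow]
          ring
      _ ≤ C * (R ^ (1 / 2 : ℝ) * (Nf K k / Nf K κ ^ 2 * (Mx / PP H ^ 2))) := by gcongr
      _ = _ := by
          rw [mul_pow]
          ring
  calc _ ≤ C * (R * (Nf K κ * PP H)) + C * (R ^ (1 / 2 : ℝ) * (Nf K k * Mx /
          (Nf K κ * PP H) ^ 2)) := add_le_add hfirst hsecond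
    _ = _ := by ring

/-- (Q2) the mean square over a family of boxes at a fixed position. -/
theorem pf_Q2 (hQ1 : D_Q1) (hCN : Pool.Agent.H23.SM.S_CN) : D_Q2 := by
  classical
  intro n ε p hn hε hp
  obtain ⟨C₁, hC₁, h1⟩ := hQ1 n ε p hn hε hp
  obtain ⟨C₂, hC₂, h2⟩ := hCN n hn
  refine ⟨C₁ * C₂, by positivity, ?_⟩
  intro K _ _ hK l k κ θ M x₀ y ω ρ H τ ι J bl η γ c D hFP hω hρM hKq hFM hH hcls hlab hspc hD
  obtain ⟨G, hG⟩ : ∃ G : InfinitePlace K → ℝ, G = fun v => min (H v) (τ v ^ (1 / 3 : ℝ)) :=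
    ⟨_, rfl⟩
  have hl : ∀ v, 1 ≤ G v ∧ G v ^ 3 ≤ τ v := fun v => by
    rw [hG]
    have := loc (H v) (τ v) (hH v).1 (hH v).2
    exact ⟨this.1, this.2.1⟩
  have hGH : ∀ v, G v ≤ H v := fun v => by rw [hG]; exact min_le_left _ _
  have hex : ∀ b₀ : ℕ, ∃ sb : ι → ℕ,
      ((((J.filter fun j => bl j = b₀).image sb).card : ℕ) : ℝ) ≤ C₂ * (PP H / PP G) ∧
      ∀ i ∈ J.filter (fun j => bl j = b₀), ∀ j ∈ J.filter (fun j => bl j = b₀),
        sb i = sb j → ∀ v, ‖c i v - c j v‖ ≤ 2 * G v := fun b₀ =>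
    h2 K hK ι (J.filter fun j => bl j = b₀) c G H (fun v => ⟨(hl v).1, hGH v⟩)
      (fun j hj v => (hcls j (Finset.mem_filter.mp hj).1).real v) (fun i hi j hj v => by
        rw [Finset.mem_filter] at hi hj
        exact (hlab i hi.1 j hj.1 (hi.2.trans hj.2.symm)).2 v)
  choose sb hsb1 hsb2 using hex
  obtain ⟨bl', hbl'⟩ : ∃ bl' : ι → ℕ, bl' = fun i => Nat.pair (bl i) (sb (bl i) i) := ⟨_, rfl⟩
  have hlab' : Lab κ J bl' η c G := by
    intro i hi j hj hij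
    rw [hbl'] at hij
    have h3 := Nat.pair_eq_pair.mp hij
    refine ⟨(hlab i hi j hj h3.1).1, ?_⟩
    refine hsb2 (bl i) i (Finset.mem_filter.mpr ⟨hi, rfl⟩) j
      (Finset.mem_filter.mpr ⟨hj, h3.1.symm⟩) ?_
    rw [h3.2, h3.1]
  have hcard : ((J.image bl').card : ℝ) ≤
      ((J.image bl).card : ℝ) * (C₂ * (PP H / PP G)) := by
    have h3 : J.image bl' ⊆ (J.image bl).biUnion fun b₀ =>
        ((J.filter fun j => bl j = b₀).image (sb b₀)).image (Nat.pair b₀) := by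
      intro x hx
      rw [Finset.mem_image] at hx
      obtain ⟨i, hi, rfl⟩ := hx
      rw [Finset.mem_biUnion]
      refine ⟨bl i, Finset.mem_image_of_mem bl hi, ?_⟩
      rw [hbl']
      exact Finset.mem_image_of_mem _ (Finset.mem_image_of_mem _
        (Finset.mem_filter.mpr ⟨hi, rfl⟩))
    have h4 : ((J.image bl').card : ℝ) ≤ ∑ b₀ ∈ J.image bl,
        ((((J.filter fun j => bl j = b₀).image (sb b₀)).card : ℕ) : ℝ) := by
      have h5 := (Finset.card_le_card h3).trans Finset.card_biUnion_le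
      have h6 : ∑ b₀ ∈ J.image bl, (((J.filter fun j => bl j = b₀).image (sb b₀)).image
          (Nat.pair b₀)).card ≤
          ∑ b₀ ∈ J.image bl, ((J.filter fun j => bl j = b₀).image (sb b₀)).card :=
        Finset.sum_le_sum fun _ _ => Finset.card_image_le
      exact_mod_cast h5.trans h6
    refine h4.trans ?_
    calc ∑ b₀ ∈ J.image bl, ((((J.filter fun j => bl j = b₀).image (sb b₀)).card : ℕ) : ℝ) ≤
          ∑ _b₀ ∈ J.image bl, C₂ * (PP H / PP G) := Finset.sum_le_sum fun b₀ _ => hsb1 b₀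
      _ = _ := by rw [Finset.sum_const, nsmul_eq_mul]
  have h3 := h1 K hK l k κ θ M x₀ y ω ρ G τ ι J bl' η γ c D hFP hω hρM hKq hFM hl hcls hlab'
    hspc hD
  refine h3.trans ?_
  have hQB : QB k κ τ G ((J.image bl').card : ℝ) ≤ C₂ * QB k κ τ H ((J.image bl).card : ℝ) := by
    rw [hG] at hcard ⊢
    exact QB_le k κ τ H hH _ _ C₂ (Nat.cast_nonneg _) hC₂ hcard
  have hNk : 0 ≤ Nf K k := by unfold Nf; exact Nat.cast_nonneg _
  have hNr : 0 ≤ Nf K k.radical := by unfold Nf; exact Nat.cast_nonneg _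
  have hNl : 0 ≤ Nf K l := by unfold Nf; exact Nat.cast_nonneg _
  have hτ0 : 0 ≤ PP τ := PP_nonneg fun v => by linarith [(hH v).2]
  have hDD : 0 ≤ DD M y := by
    unfold DD
    have : (0 : ℝ) ≤ (FractionalIdeal.absNorm M : ℝ) := by
      exact_mod_cast FractionalIdeal.absNorm_nonneg M
    positivity
  have hE : 0 ≤ (1 + DD M y / Nf K l) * (1 + DD M y / Nf K l / (Nf K k * PP τ)) ^ (3 / 2 : ℝ) := by
    positivity
  obtain ⟨E, hEe⟩ : ∃ E : ℝ, E = (1 + DD M y / Nf K l) *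
    (1 + DD M y / Nf K l / (Nf K k * PP τ)) ^ (3 / 2 : ℝ) := ⟨_, rfl⟩
  rw [← hEe] at hE ⊢
  have hX : 0 ≤ D * dK K ^ 2 * Nf K k.radical ^ 3 * (Nf K k * PP τ) ^ ε := by
    have h5 : 0 ≤ D := by linarith
    have h6 : 0 ≤ (Nf K k * PP τ) ^ ε := Real.rpow_nonneg (mul_nonneg hNk hτ0) _
    positivity
  obtain ⟨X, hXe⟩ : ∃ X : ℝ, X = D * dK K ^ 2 * Nf K k.radical ^ 3 * (Nf K k * PP τ) ^ ε :=
    ⟨_, rfl⟩
  rw [← hXe] at hX ⊢
  calc C₁ * (X * QB k κ τ G ((J.image bl').card : ℝ) * E) ≤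
        C₁ * (X * (C₂ * QB k κ τ H ((J.image bl).card : ℝ)) * E) := by gcongr
    _ = _ := by ring

end Pool.Agent.H55.DM.Q2
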