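import Pool.Agent.H6.DM.P2
import Pool.Agent.H23.DM.TargetsQ

/-!
# The dual sums, all densities: row QP
-/

set_option autoImplicit false

open NumberField NumberField.InfinitePlace Set Filter Complex
open scoped nonZeroDivisors ENNReal

namespace Pool.Agent.H55.DM.QP

open Pool.Agent.H25.HK Pool.Agent.H23.LB Pool.Agent.H27.TM
open Pool.Agent.H29.DW (dg Rl wv Pos rv)
open Pool.Agent.H31.SW (DD PP dK)
open Pool.Agent.H23.DM
open Pool.Agent.H63.SWL (PP_pos PP_nonneg one_le_PP PP_mono PP_mul PP_const PP_const_mul one_le_dK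
  DD_pos zero_memL)
open Pool.Agent.H6.TM.P2 (tail wt_le_one prods)
open Pool.Agent.H6.DM.P2
open Pool.Agent.H52.SX (nf_pos nf_one_le nf_mul nf_le)

/-- the sum of the two parts -/
theorem num_sum' {C1 C2 D d r Te q X R Y U : ℝ} (hC1 : 0 ≤ C1) (hC2 : 0 ≤ C2) (hD : 1 ≤ D)
    (hd : 1 ≤ d) (hTe : 1 ≤ Te) (hq : 1 ≤ q) (hX : 0 ≤ X) (hR : 0 ≤ R) (hU : 0 ≤ U)
    (hY : Y ≤ C2 * (D * d ^ 2 * r ^ 2 * Te * (Real.sqrt q * (X + R)))) :
    R * (C1 * U * (r ^ 2 * d)) + Y ≤ (C2 + C1) *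
      (D * d ^ 2 * r ^ 2 * Te * (Real.sqrt q * (X + R * (1 + U)))) := by
  have hsq1 : 1 ≤ Real.sqrt q := Real.one_le_sqrt.2 hq
  have hRU : 0 ≤ R * U := mul_nonneg hR hU
  obtain ⟨m, hm⟩ : ∃ m : ℝ, m = D * d ^ 2 * r ^ 2 * Te := ⟨_, rfl⟩
  have h2 : r ^ 2 * d ≤ m := by
    have h3 : d ≤ d ^ 2 := le_self_pow₀ hd two_ne_zero
    have h4 : d ^ 2 ≤ D * d ^ 2 := le_mul_of_one_le_left (sq_nonneg d) hD
    have h5 : D * d ^ 2 * r ^ 2 ≤ D * d ^ 2 * r ^ 2 * Te :=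
      le_mul_of_one_le_right (by positivity) hTe
    have h6 : r ^ 2 * d ≤ D * d ^ 2 * r ^ 2 := by
      rw [mul_comm]
      exact mul_le_mul_of_nonneg_right (h3.trans h4) (sq_nonneg r)
    rw [hm]
    exact h6.trans h5
  have hm0 : 0 ≤ m := (mul_nonneg (sq_nonneg r) (zero_le_one.trans hd)).trans h2
  rw [← hm] at hY ⊢
  have hle : X + R ≤ X + R * (1 + U) := by
    rw [mul_add, mul_one]
    linarith
  have h3 : r ^ 2 * d * (R * U) ≤ m * (Real.sqrt q * (X + R * (1 + U))) := by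
    refine mul_le_mul h2 ?_ hRU hm0
    calc R * U ≤ X + R * (1 + U) := by
          rw [mul_add, mul_one]
          linarith
      _ ≤ Real.sqrt q * (X + R * (1 + U)) := le_mul_of_one_le_left (by linarith) hsq1
  have h4 := mul_le_mul_of_nonneg_left h3 hC1
  have h5 : C2 * (m * (Real.sqrt q * (X + R))) ≤
      C2 * (m * (Real.sqrt q * (X + R * (1 + U)))) :=
    mul_le_mul_of_nonneg_left (mul_le_mul_of_nonneg_left
      (mul_le_mul_of_nonneg_left hle (Real.sqrt_nonneg q)) hm0) hC2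
  calc R * (C1 * U * (r ^ 2 * d)) + Y = C1 * (r ^ 2 * d * (R * U)) + Y := by ring
    _ ≤ C1 * (m * (Real.sqrt q * (X + R * (1 + U)))) +
        C2 * (m * (Real.sqrt q * (X + R * (1 + U)))) := by linarith
    _ = _ := by ring

/-- (QP) the dual sums, all densities. -/
theorem pf_QP (hDU : M_DU) (hET : M_ET) (hZT : D_ZT) (hPS : D_PS) (hDV : D_DV) (hSM : D_SM)
    (hCH : D_CH) (hLN : D_LN) : D_QP := by
  classical
  intro n ε hn hε
  obtain ⟨u, hu, hu1, huε⟩ : ∃ u : ℝ, 0 < u ∧ u ≤ 1 ∧ u ≤ ε :=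
    ⟨min ε 1, lt_min hε one_pos, min_le_right _ _, min_le_left _ _⟩
  have hn' : (0 : ℝ) < n := by exact_mod_cast hn
  obtain ⟨e1, he1'⟩ : ∃ e1 : ℝ, e1 = u / (8 * n) := ⟨_, rfl⟩
  have he10 : 0 < e1 := by rw [he1']; positivity
  obtain ⟨e2, he2'⟩ : ∃ e2 : ℝ, e2 = u / (8 * (n + 2)) := ⟨_, rfl⟩
  have he20 : 0 < e2 := by rw [he2']; positivity
  have he21 : 2 * e2 ≤ 1 := by
    rw [he2', mul_div_assoc', div_le_one (by positivity)]
    linarith
  obtain ⟨m, hmn, hm⟩ : ∃ m : ℕ, n + 5 ≤ m ∧ 2 / e1 ≤ ((m + 3 : ℕ) : ℝ) - 5 := by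
    refine ⟨n + 5 + ⌈2 / e1⌉₊, by omega, ?_⟩
    have := Nat.le_ceil (2 / e1)
    push_cast
    linarith
  refine ⟨m + 3, by omega, fun C₁ hC₁ => ?_⟩
  obtain ⟨Ce, hCe, hET⟩ := hET n (m + 3) C₁ hn hC₁
  obtain ⟨Cz, hCz, hZT⟩ := hZT n (m + 3) hn (by omega)
  obtain ⟨Cp, hCp, hPS⟩ := hPS n m C₁ hn hmn hC₁
  obtain ⟨Cv, hCv, hDV⟩ := hDV n hn e2 he20
  obtain ⟨Cs, hCs, hSM⟩ := hSM n hn
  refine ⟨(Cz * 2 ^ n * Cp * Cs * Cv ^ 2 + 1) + Cv * Ce * (1 + Cz * (1 + 2 ^ n)), by positivity,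
    ?_⟩
  intro K _ _ hK l k κ b κ₃ b₃ e k' M y ω G α τ A ι I γ c E D Q bb hl hk hM hω hCh hek heκ hCO
    hA hG hcls hcd hspc hD hQ hbb
  obtain ⟨hτ, hbt, hbτ, ha0, ha1, hg, hB1, hBT, hT1, haT, haB, haΘ⟩ := prods hK hG
  have hd : 1 ≤ dK K := one_le_dK
  have hDD : 0 < DD M y := DD_pos hM y
  have hT10 : 0 < PP τ := by linarith
  have hB0 : 0 < PP (bt α τ) := by linarith
  have hα : ∀ v, 0 < α v ∧ α v ≤ 1 / 10000 := fun v => ⟨(hG v).2.1, (hG v).2.2.1⟩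
  -- the ideals
  have hkκ := hCh.k_le
  have hκr := hCh.le
  have hkr : k ≤ k.radical := Ideal.le_radical
  have hr0 : k.radical ≠ ⊥ := fun h => hk (le_bot_iff.1 (h ▸ hkr))
  have hkk' : k ≤ k' := by rw [hek]; exact Ideal.mul_le_right
  have hk'0 : k' ≠ ⊥ := fun h => hk (le_bot_iff.1 (h ▸ hkk'))
  have hke : k ≤ e := by rw [hek]; exact Ideal.mul_le_left
  have he0 : e ≠ ⊥ := fun h => hk (le_bot_iff.1 (h ▸ hke))
  have hκ0 : κ ≠ ⊥ := fun h => hk (le_bot_iff.1 (h ▸ hkκ))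
  obtain ⟨b', κ₃', b₃', hCh', -, -, hκ₃0, -, hCH1⟩ := hCH K k κ hk hkκ hκr
  have hκ₃ : κ₃' = κ₃ := by rw [hCh'.κ₃_eq, hCh.κ₃_eq]
  have hb₃ : b₃' = b₃ := by
    have h1 : κ₃' * b₃' = κ₃' * b₃ := by rw [← hCh'.b₃_eq, hκ₃, ← hCh.b₃_eq]
    exact mul_left_cancel₀ hκ₃0 h1
  rw [hb₃] at hCH1
  obtain ⟨-, hNk, -, -, hN3, -⟩ := hCH1 e k' hek heκ
  obtain ⟨-, hNz0, -, hDDN, hNr1, hNr2, -, -⟩ := hLN K e k.radical k' he0 hr0 hk'0
  have hDDN0 := hDDN 0
  simp only [Pi.zero_apply, mul_zero, Finset.sum_const_zero, neg_zero, zero_div, Real.exp_zero,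
    one_mul] at hDDN0
  rw [hK] at hDDN0
  have hNe0 : 0 < Nf K e := nf_pos he0
  have hNe1 : 1 ≤ Nf K e := nf_one_le he0
  have hNk'0 : 0 < Nf K k' := nf_pos hk'0
  have hNk'1 : 1 ≤ Nf K k' := nf_one_le hk'0
  have hNk1 : 1 ≤ Nf K k := nf_one_le hk
  have hNk0 : 0 < Nf K k := nf_pos hk
  have hNκ1 : 1 ≤ Nf K κ := nf_one_le hκ0
  have hNκ0 : 0 < Nf K κ := nf_pos hκ0
  have hNκe : Nf K κ ≤ Nf K e := nf_le he0 heκ
  have hr1 : 1 ≤ Nf K k.radical := nf_one_le hr0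
  obtain ⟨r, hr⟩ : ∃ r : ℝ, r = Nf K k.radical := ⟨_, rfl⟩
  rw [← hr] at hr1 hNr2 ⊢
  have hrp : 0 < r := by linarith
  obtain ⟨T, hT⟩ : ∃ T : ℝ, T = Nf K k * PP τ := ⟨_, rfl⟩
  rw [← hT]
  have hT' : 1 ≤ T := by rw [hT]; exact one_le_mul_of_one_le_of_one_le hNk1 hT1
  have hT0 : 0 < T := by linarith
  have hTτ : PP τ ≤ T := by rw [hT]; exact le_mul_of_one_le_left hT10.le hNk1
  have hTk : Nf K k ≤ T := by rw [hT]; exact le_mul_of_one_le_right hNk0.le hT1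
  -- the parameter `W`
  obtain ⟨W, hW⟩ : ∃ W : ℝ, W = T ^ e1 := ⟨_, rfl⟩
  have hW1 : 1 ≤ W := by rw [hW]; exact Real.one_le_rpow hT' he10.le
  have hWn : W ^ n = T ^ (u / 8) := by
    rw [hW, ← Real.rpow_natCast, ← Real.rpow_mul hT0.le, he1']
    congr 1
    field_simp
  have hWk : W ^ (-(((m + 3 : ℕ) : ℝ) - 5)) ≤ (T ^ 2)⁻¹ := by
    rw [hW, ← Real.rpow_mul hT0.le, ← Real.rpow_natCast, ← Real.rpow_neg hT0.le]
    refine Real.rpow_le_rpow_of_exponent_le hT' ?_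
    rw [div_le_iff₀ he10] at hm
    push_cast at hm ⊢
    linarith
  obtain ⟨N, hN⟩ : ∃ N : FI K, N = Nz K k.radical k' e := ⟨_, rfl⟩
  rw [← hN] at hDDN0 hNz0 ⊢
  obtain ⟨hfin, hcard, hsum, htail⟩ := hZT K hK N α τ W hNz0 (fun v => (hα v).1) hW1
  obtain ⟨w, hw⟩ : ∃ w : K → ℝ, w = fun ν => ∏ v : InfinitePlace K,
    (1 + ‖mc α ν v‖ / bt α τ v) ^ (-((m + 3 : ℕ) : ℝ)) := ⟨_, rfl⟩
  have hw0 : ∀ ν, 0 ≤ w ν := fun ν => by rw [hw]; exact (wt_le_one α τ (m + 3) ν).1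
  have hw1 : ∀ ν, w ν ≤ 1 := fun ν => by rw [hw]; exact (wt_le_one α τ (m + 3) ν).2
  have hws : Summable fun ν : {ν : K // ν ∈ N} => w ν := by rw [hw]; exact hsum
  have htl : ∑' ν : {ν : K // ν ∈ N ∧ ¬ ∀ v, ‖mc α ν v‖ ≤ W * bt α τ v}, w ν ≤
      Cz * (W ^ (-(((m + 3 : ℕ) : ℝ) - 5)) * (1 + DD N 0 * (PP α * PP (bt α τ)))) := by
    rw [hw]
    exact htail
  have hE1 : ∀ i ∈ I, ∀ ν ∈ N, ‖E i ν‖ ≤ r := fun i hi ν hν => by
    have h1 := hCO.norm i hi ν (hN ▸ hν)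
    rw [← hr] at h1
    exact le_of_sq_le_sq (h1.trans (le_self_pow₀ hr1 two_ne_zero)) hrp.le
  have hE : ∀ i ∈ I, ∀ ν, ‖Ep α Q (c i) ν‖ ≤ Ce * w ν := fun i hi ν => by
    rw [hw]
    exact (hET K hK α τ (c i) Q hα (hcls i hi) hQ).1 ν
  have hE0 : ∀ i ∈ I, ‖Ep α Q (c i) 0‖ ≤ Ce * (PP (bt α τ))⁻¹ := fun i hi => by
    refine ((hET K hK α τ (c i) Q hα (hcls i hi) hQ).2).trans
      (mul_le_mul_of_nonneg_left ?_ hCe)
    unfold PP
    rw [← Finset.prod_inv_distrib]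
    refine Finset.prod_le_prod (fun v _ => Real.rpow_nonneg (zero_le_one.trans (hbt v)) _)
      fun v _ => ?_
    rw [Real.rpow_neg (zero_le_one.trans (hbt v)), Real.rpow_natCast]
    refine inv_anti₀ (pow_pos (zero_lt_one.trans_le (hbt v)) _)
      (pow_le_pow_right₀ (hbt v) ?_)
    have : v.mult ≤ 2 := by
      unfold InfinitePlace.mult
      split_ifs <;> norm_num
    omega
  obtain ⟨hAfin, hde⟩ := hDV K hK l k e k' M y ω α A hl hk hM hω (fun v => (hα v).1) hek hA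
  have hCv0 : 0 ≤ Cv := by linarith
  have hCs0 : 0 < Cs := by linarith
  have hNl0 : 0 < Nf K l := nf_pos hl
  obtain ⟨U, hU⟩ : ∃ U : ℝ, U = DD M y / Nf K l / T := ⟨_, rfl⟩
  have hU0 : 0 ≤ U := by rw [hU]; exact div_nonneg (div_nonneg hDD.le hNl0.le) hT0.le
  have hUT : DD M y / Nf K l = U * T := by
    rw [hU]
    exact (div_mul_cancel₀ _ hT0.ne').symm
  have hCU0 : 0 ≤ Cv * U := mul_nonneg hCv0 hU0
  have hb1 : ∀ ν, ‖bb ν‖ ≤ Cv * U * (T / Nf K e * PP α) := fun ν => by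
    refine (hbb ν).trans (((hde ν).2.1).trans (le_of_eq ?_))
    rw [← div_div, hUT]
    ring
  have hb2 : ∀ ν, ‖bb ν‖ ≤ Cv * U * T := fun ν => by
    refine (hb1 ν).trans (mul_le_mul_of_nonneg_left ?_ hCU0)
    calc T / Nf K e * PP α ≤ T * 1 :=
          mul_le_mul (div_le_self hT0.le hNe1) ha1 ha0.le hT0.le
      _ = T := mul_one _
  -- the covolume of the dual lattice
  obtain ⟨q, hq⟩ : ∃ q : ℝ, q = Nf K k' := ⟨_, rfl⟩
  obtain ⟨ne, hne⟩ : ∃ ne : ℝ, ne = Nf K e := ⟨_, rfl⟩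
  rw [← hne] at hNe0 hNe1 hNκe hNk hN3 hDDN0 hb1
  rw [← hq] at hNk'0 hNk'1 hNk hN3 hNr1 hNr2 ⊢
  have hDN : DD N 0 ≤ 2 ^ n * (dK K * (r * (q / ne))) := by
    rw [hDDN0]
    calc 2 ^ n * dK K * (Nf K (k.radical ⊓ k') / ne) ≤ 2 ^ n * dK K * (r * q / ne) :=
          mul_le_mul_of_nonneg_left (div_le_div_of_nonneg_right hNr2 hNe0.le)
            (mul_nonneg (pow_nonneg zero_le_two n) (zero_le_one.trans hd))
      _ = _ := by ring
  have hDN0 : 0 ≤ DD N 0 := (DD_pos hNz0 0).le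
  have hqT : q / ne * PP τ ≤ T := by
    have h1 : q / ne ≤ Nf K k := by
      rw [div_le_iff₀ hNe0, hNk]
      exact (le_mul_of_one_le_left hNk'0.le hNe1).trans
        (le_mul_of_one_le_right (mul_pos hNe0 hNk'0).le hNe1)
    rw [hT]
    exact mul_le_mul_of_nonneg_right h1 hT10.le
  -- the set of the main terms
  obtain ⟨S, hS⟩ : ∃ S : Finset {ν : K // ν ∈ N},
      S = hfin.toFinset.subtype (fun ν => ν ∈ N) := ⟨_, rfl⟩
  have hmem : ∀ ν : {ν : K // ν ∈ N}, ν ∈ S ↔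
      (ν.1 ≠ 0 ∧ ∀ v, ‖mc α ν.1 v‖ ≤ W * bt α τ v) := fun ν => by
    rw [hS, Finset.mem_subtype, Set.Finite.mem_toFinset]
    exact ⟨fun h => h.2, fun h => ⟨ν.2, h⟩⟩
  have haB0 : 0 ≤ PP α * PP (bt α τ) := mul_nonneg ha0.le hB0.le
  have hd0 : 0 ≤ dK K := zero_le_one.trans hd
  have hqe0 : 0 < q / ne := div_pos hNk'0 hNe0
  have hz0 : (0 : ℝ) ≤ 2 ^ n := pow_nonneg zero_le_two n
  have hCc0 : 0 ≤ 1 + Cz * (1 + 2 ^ n) :=
    add_nonneg zero_le_one (mul_nonneg hCz (add_nonneg zero_le_one hz0))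
  have hCvT : 0 ≤ Cv * U * T := mul_nonneg hCU0 hT0.le
  have hScard : (S.card : ℝ) ≤ Cz * 2 ^ n * (dK K * (r * (q / ne) * (PP α * PP (bt α τ))) *
      W ^ n) := by
    refine num_card hCz haB0 (pow_nonneg (zero_le_one.trans hW1) n) hDN ?_
    refine le_trans ?_ hcard
    rw [Set.ncard_eq_toFinset_card _ hfin, hS, Finset.card_subtype]
    exact_mod_cast Finset.card_filter_le _ _
  have hmain := hDU ι {ν : K // ν ∈ N} I S (fun ν => bb ν.1)
    (fun i ν => E i ν.1 * Ep α Q (c i) ν.1)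
    (Cv * U * Ce * (1 + Cz * (1 + 2 ^ n)) * (r ^ 2 * dK K)) ?_ ?_ ?_
  · -- the sum over `S`
    obtain ⟨P, hP⟩ : ∃ P : ℝ, P = (dK K * T ^ (n + 2)) ^ e2 := ⟨_, rfl⟩
    have hdT : 0 ≤ dK K * T ^ (n + 2) := mul_nonneg hd0 (pow_nonneg hT0.le _)
    have hP0 : 0 ≤ P := by rw [hP]; exact Real.rpow_nonneg hdT _
    have hP2 : P ^ 2 ≤ dK K * T ^ (u / 4) := by
      rw [hP]
      exact num_P hd hT' he2' he21
    have hS1 : ∑ ν ∈ S, ‖bb ν.1‖ ^ 2 ≤ Cz * 2 ^ n *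
        (dK K * (r * (q / ne) * (PP α * PP (bt α τ))) * T ^ (u / 8)) * (Cv * P) ^ 2 := by
      have h1 : ∀ ν ∈ S, ‖bb ν.1‖ ^ 2 ≤ (Cv * P) ^ 2 := by
        intro ν hν
        obtain ⟨h2, h3⟩ := (hmem ν).1 hν
        refine pow_le_pow_left₀ (norm_nonneg _) ?_ 2
        refine (hbb ν.1).trans (((hde ν.1).2.2 (hN ▸ ν.2) h2).trans ?_)
        refine mul_le_mul_of_nonneg_left ?_ hCv0
        have hpn : 0 ≤ ∏ v : InfinitePlace K, ‖v.embedding ν.1‖ ^ v.mult :=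
          Finset.prod_nonneg fun v _ => pow_nonneg (norm_nonneg _) _
        rw [hP]
        refine Real.rpow_le_rpow (mul_nonneg (mul_nonneg hd0 (pow_nonneg hNk0.le n)) hpn) ?_
          he20.le
        rw [mul_assoc]
        refine mul_le_mul_of_nonneg_left ?_ (by linarith)
        calc Nf K k ^ n * ∏ v : InfinitePlace K, ‖v.embedding ν.1‖ ^ v.mult
            ≤ T ^ n * PP (fun v => W * τ v) := by
              refine mul_le_mul (pow_le_pow_left₀ hNk0.le hTk n) ?_ hpn (pow_nonneg hT0.le n)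
              refine Finset.prod_le_prod (fun v _ => pow_nonneg (norm_nonneg _) _) fun v _ => ?_
              refine pow_le_pow_left₀ (norm_nonneg _) ?_ _
              exact (emb_le (hα v) ν.1).trans ((h3 v).trans
                (mul_le_mul_of_nonneg_left (hbτ v) (by linarith)))
          _ = T ^ n * (W ^ n * PP τ) := by rw [PP_const_mul, hK]
          _ ≤ T ^ n * (T * T) := by
              refine mul_le_mul_of_nonneg_left ?_ (pow_nonneg hT0.le n)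
              refine mul_le_mul ?_ hTτ hT10.le hT0.le
              rw [hWn]
              calc T ^ (u / 8) ≤ T ^ (1 : ℝ) :=
                    Real.rpow_le_rpow_of_exponent_le hT' (by linarith)
                _ = T := Real.rpow_one _
          _ = T ^ (n + 2) := by ring
      calc ∑ ν ∈ S, ‖bb ν.1‖ ^ 2 ≤
            ∑ _ν ∈ S, (Cv * P) ^ 2 := Finset.sum_le_sum h1
        _ = (S.card : ℝ) * (Cv * P) ^ 2 := by
            rw [Finset.sum_const, nsmul_eq_mul]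
        _ ≤ _ := by
            rw [← hWn]
            exact mul_le_mul_of_nonneg_right hScard (sq_nonneg _)
    -- the sum over the pairs
    obtain ⟨Θ, hΘ'⟩ : ∃ Θ : ℝ, Θ = PP (fun v => 1 + 2 * α v * G v ^ 3) ^ (1 / 2 : ℝ) := ⟨_, rfl⟩
    obtain ⟨g, hg'⟩ : ∃ g : ℝ, g = Nf K κ * PP G := ⟨_, rfl⟩
    have hg1 : 1 ≤ g := by rw [hg']; exact one_le_mul_of_one_le_of_one_le hNκ1 hg
    have hΘ : 0 ≤ Θ := by
      rw [hΘ']
      refine Real.rpow_nonneg (PP_nonneg fun v => ?_) _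
      obtain ⟨g1, g2, -, -, -⟩ := hG v
      exact add_nonneg zero_le_one (mul_nonneg (mul_nonneg zero_le_two g2.le)
        (pow_nonneg (zero_le_one.trans g1) 3))
    have hS2 : ∑ i ∈ I, ∑ j ∈ I, ‖∑' ν : {ν : K // ν ∈ N}, E i ν.1 * Ep α Q (c i) ν.1 *
        (starRingEnd ℂ) (E j ν.1 * Ep α Q (c j) ν.1)‖ ≤ Cp * (Real.sqrt (dK K) * (r ^ 2 *
        ((I.card : ℝ) * (Cs * (D * (r * q))) / g + (I.card : ℝ) ^ 2 *
        (ne * Θ / PP (bt α τ))))) := by
      have h1 : ∀ i ∈ I, ∑ j ∈ I, ‖∑' ν : {ν : K // ν ∈ N}, E i ν.1 * Ep α Q (c i) ν.1 *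
          (starRingEnd ℂ) (E j ν.1 * Ep α Q (c j) ν.1)‖ ≤ Cp * (Real.sqrt (dK K) * (r ^ 2 *
          (Cs * (D * (r * q)) / g + (I.card : ℝ) * (ne * Θ / PP (bt α τ))))) := by
        intro i hi
        have h2 : ∀ j ∈ I, ‖∑' ν : {ν : K // ν ∈ N}, E i ν.1 * Ep α Q (c i) ν.1 *
            (starRingEnd ℂ) (E j ν.1 * Ep α Q (c j) ν.1)‖ ≤ Cp * (Real.sqrt (dK K) * (r ^ 2 *
            (PP α * (q / ne) * (if ∀ t ∈ k.radical, (γ i - γ j) * t ∈ k' then
            ∏ v : InfinitePlace K, th1 α (c i) (c j) v ^ (-(4 : ℝ)) else 0) +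
            ne * Θ / PP (bt α τ)))) := by
          intro j hj
          rw [hN]
          refine (hPS K hK k.radical e k' ι I γ E α τ (c i) (c j) Q hr0 he0 hk'0 hCO hα
            (hcls i hi) (hcls j hj) hQ i hi j hj).trans ?_
          rw [← hr, ← hq, ← hne, mul_assoc (Real.sqrt (dK K))]
          have hth : ∀ v, 1 ≤ th1 α (c i) (c j) v := fun v => by
            unfold th1
            have := mul_nonneg (hα v).1.le (norm_nonneg (c i v - c j v))
            linarith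
          refine mul_le_mul_of_nonneg_left (mul_le_mul_of_nonneg_left
            (mul_le_mul_of_nonneg_left (add_le_add ?_ ?_) (sq_nonneg r))
            (Real.sqrt_nonneg _)) hCp
          · by_cases hcond : ∀ t ∈ k.radical, (γ i - γ j) * t ∈ k'
            · rw [if_pos hcond, if_pos hcond]
              refine mul_le_mul_of_nonneg_left ?_ (mul_pos ha0 hqe0).le
              refine Finset.prod_le_prod
                (fun v _ => Real.rpow_nonneg (zero_le_one.trans (hth v)) _) fun v _ => ?_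
              refine Real.rpow_le_rpow_of_exponent_le (hth v) ?_
              have : (4 : ℝ) ≤ m := by exact_mod_cast (by omega : 4 ≤ m)
              linarith
            · rw [if_neg hcond, if_neg hcond, mul_zero]
          · refine div_le_div_of_nonneg_right ?_ hB0.le
            refine mul_le_mul ?_ ?_ (Real.rpow_nonneg (PP_nonneg fun v =>
              zero_le_one.trans (hth v)) _) hNe0.le
            · have hb3 := (hcd i hi j hj).1
              have h3 := hN3 _ hb3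
              have h4 : 0 < Nf K (k' ⊔ Ideal.span {γ i - γ j}) := nf_pos fun h =>
                hk'0 (le_bot_iff.1 (h ▸ (le_sup_left : k' ≤ k' ⊔ Ideal.span {γ i - γ j})))
              rw [← Real.sqrt_eq_rpow]
              refine Real.sqrt_le_iff.2 ⟨hNe0.le, ?_⟩
              rw [div_le_iff₀ h4]
              exact h3
            · rw [hΘ']
              refine Real.rpow_le_rpow (PP_nonneg fun v => zero_le_one.trans (hth v)) ?_
                (by norm_num)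
              refine PP_mono (fun v => zero_le_one.trans (hth v)) fun v => ?_
              unfold th1
              have h3 := (hcd i hi j hj).2 v
              have h4 := mul_le_mul_of_nonneg_left h3 (hα v).1.le
              linarith
        have h5 : ∑ j ∈ I, (if ∀ t ∈ k.radical, (γ i - γ j) * t ∈ k' then
            ∏ v : InfinitePlace K, th1 α (c i) (c j) v ^ (-(4 : ℝ)) else 0) ≤
            Cs * (D * (r * (ne / Nf K κ))) / (PP α * PP G) := by
          rw [hr, hne]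
          refine hSM K hK k κ b κ₃ b₃ e k' ι I γ c G α D hk hCh hek heκ
            (fun j hj => (hcls j hj).real) (fun v => ?_) hspc i hi
          obtain ⟨g1, g2, g3, g4, -⟩ := hG v
          exact ⟨g2, by linarith, by linarith [mul_comm (G v) (α v)]⟩
        calc ∑ j ∈ I, ‖∑' ν : {ν : K // ν ∈ N}, E i ν.1 * Ep α Q (c i) ν.1 *
              (starRingEnd ℂ) (E j ν.1 * Ep α Q (c j) ν.1)‖
            ≤ ∑ j ∈ I, Cp * (Real.sqrt (dK K) * (r ^ 2 *
              (PP α * (q / ne) * (if ∀ t ∈ k.radical, (γ i - γ j) * t ∈ k' then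
              ∏ v : InfinitePlace K, th1 α (c i) (c j) v ^ (-(4 : ℝ)) else 0) +
              ne * Θ / PP (bt α τ)))) := Finset.sum_le_sum h2
          _ = Cp * (Real.sqrt (dK K) * (r ^ 2 * (PP α * (q / ne) *
              ∑ j ∈ I, (if ∀ t ∈ k.radical, (γ i - γ j) * t ∈ k' then
              ∏ v : InfinitePlace K, th1 α (c i) (c j) v ^ (-(4 : ℝ)) else 0) +
              (I.card : ℝ) * (ne * Θ / PP (bt α τ))))) := by
              rw [← Finset.mul_sum, ← Finset.mul_sum, ← Finset.mul_sum, Finset.sum_add_distrib,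
                ← Finset.mul_sum, Finset.sum_const, nsmul_eq_mul]
          _ ≤ _ := by
              refine mul_le_mul_of_nonneg_left (mul_le_mul_of_nonneg_left
                (mul_le_mul_of_nonneg_left (add_le_add ?_ le_rfl) (sq_nonneg r))
                (Real.sqrt_nonneg _)) hCp
              refine (mul_le_mul_of_nonneg_left h5 (mul_pos ha0 hqe0).le).trans (le_of_eq ?_)
              rw [hg']
              exact num_first ha0.ne' (zero_lt_one.trans_le hg).ne' hNe0.ne' hNκ0.ne'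
      calc ∑ i ∈ I, ∑ j ∈ I, ‖∑' ν : {ν : K // ν ∈ N}, E i ν.1 * Ep α Q (c i) ν.1 *
            (starRingEnd ℂ) (E j ν.1 * Ep α Q (c j) ν.1)‖ ≤ ∑ _i ∈ I, Cp * (Real.sqrt (dK K) *
            (r ^ 2 * (Cs * (D * (r * q)) / g + (I.card : ℝ) * (ne * Θ / PP (bt α τ))))) :=
            Finset.sum_le_sum h1
        _ = _ := by
            rw [Finset.sum_const, nsmul_eq_mul]
            ring
    have haBq : PP α * PP (bt α τ) * (q / ne) * g ^ 2 ≤ T := by
      have h1 : PP α * PP (bt α τ) * (q / ne) * g ^ 2 =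
          (PP α * PP (bt α τ) * PP G ^ 2) * (q * Nf K κ ^ 2 / ne) := by
        rw [hg']
        ring
      have h2 : q * Nf K κ ^ 2 / ne ≤ Nf K k := by
        rw [div_le_iff₀ hNe0, hNk]
        have h3 : Nf K κ ^ 2 ≤ ne ^ 2 := pow_le_pow_left₀ hNκ0.le hNκe 2
        calc q * Nf K κ ^ 2 ≤ q * ne ^ 2 := mul_le_mul_of_nonneg_left h3 hNk'0.le
          _ = ne * q * ne := by ring
      rw [h1, hT, mul_comm (Nf K k)]
      exact mul_le_mul haB h2 (div_nonneg (mul_nonneg hNk'0.le (sq_nonneg _)) hNe0.le) hT10.le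
    have hfinal := num (Cz := Cz * 2 ^ n) (mul_nonneg hCz (pow_nonneg zero_le_two n)) hCp hCs hd hT' ha0 hB0 hg1 hΘ
      (Nat.cast_nonneg I.card) hD hr1 (div_pos hNk'0 hNe0) hNe0 (div_mul_cancel₀ q hNe0.ne') hu
      huε rfl haBq (hΘ' ▸ haΘ) hP0 hP2 hS1 hS2 (Finset.sum_nonneg fun _ _ => sq_nonneg _)
      (Finset.sum_nonneg fun _ _ => Finset.sum_nonneg fun _ _ => norm_nonneg _)
    refine hmain.trans ?_
    rw [← hg']
    obtain ⟨X, hX⟩ : ∃ X : ℝ, X = (I.card : ℝ) ^ (1 / 2 : ℝ) *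
      (T ^ (1 / 2 : ℝ) * g ^ (-(3 / 2) : ℝ)) := ⟨_, rfl⟩
    rw [← hX] at hfinal ⊢
    have hX0 : 0 ≤ X := by
      rw [hX]
      exact mul_nonneg (Real.rpow_nonneg (Nat.cast_nonneg _) _) (mul_nonneg
        (Real.rpow_nonneg hT0.le _) (Real.rpow_nonneg (zero_le_one.trans hg1) _))
    have hfin2 := num_sum' (U := U) (mul_nonneg (mul_nonneg hCv0 hCe) hCc0) ?_ hD hd
      (Real.one_le_rpow hT' hε.le) hNk'1 hX0 (Nat.cast_nonneg _) hU0 hfinal
    · rw [← hU]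
      refine le_trans (le_of_eq ?_) hfin2
      ring
    · exact add_nonneg (mul_nonneg (mul_nonneg (mul_nonneg (mul_nonneg hCz hz0) hCp) hCs0.le)
        (sq_nonneg _)) zero_le_one
  · -- summability
    intro i hi
    refine Summable.of_nonneg_of_le (fun _ => sq_nonneg _) (fun ν => ?_)
      (hws.mul_left ((r * Ce) ^ 2))
    calc ‖E i ν.1 * Ep α Q (c i) ν.1‖ ^ 2 ≤ (r * (Ce * w ν.1)) ^ 2 := by
          rw [norm_mul]
          exact pow_le_pow_left₀ (mul_nonneg (norm_nonneg _) (norm_nonneg _))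
            (mul_le_mul (hE1 i hi _ ν.2) (hE i hi _) (norm_nonneg _) hrp.le) 2
      _ = (r * Ce) ^ 2 * (w ν.1 * w ν.1) := by ring
      _ ≤ (r * Ce) ^ 2 * (w ν.1 * 1) := by
          refine mul_le_mul_of_nonneg_left ?_ (sq_nonneg _)
          exact mul_le_mul_of_nonneg_left (hw1 _) (hw0 _)
      _ = (r * Ce) ^ 2 * w ν.1 := by rw [mul_one]
  · intro i hi
    refine Summable.of_norm_bounded (hws.mul_left (Cv * U * T * (r * Ce))) fun ν => ?_
    rw [norm_mul, norm_mul]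
    calc ‖bb ν.1‖ * (‖E i ν.1‖ * ‖Ep α Q (c i) ν.1‖) ≤ Cv * U * T * (r * (Ce * w ν.1)) :=
          mul_le_mul (hb2 _) (mul_le_mul (hE1 i hi _ ν.2) (hE i hi _) (norm_nonneg _) hrp.le)
            (mul_nonneg (norm_nonneg _) (norm_nonneg _)) hCvT
      _ = _ := by ring
  · -- the tail
    intro i hi
    obtain ⟨f, hf⟩ : ∃ f : K → ℂ, f = fun ν => if ν ∈ N then bb ν * (E i ν * Ep α Q (c i) ν)
      else 0 := ⟨_, rfl⟩
    have hfN : ∀ ν ∈ N, f ν = bb ν * (E i ν * Ep α Q (c i) ν) := fun ν hν => by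
      rw [hf]
      exact if_pos hν
    have h00 : ‖f 0‖ ≤ Cv * U * Ce * (r ^ 2 * dK K) := by
      rw [hfN 0 (zero_memL N)]
      by_cases hz : E i 0 = 0
      · rw [hz, zero_mul, mul_zero, norm_zero]
        exact mul_nonneg (mul_nonneg hCU0 hCe) (mul_nonneg (sq_nonneg r) hd0)
      · have hrk := hCO.zero i hi hz
        have hqr : q ≤ r := by
          rw [hq, hr]
          exact nf_le hr0 hrk
        rw [norm_mul, norm_mul]
        refine le_trans ?_ (num_zero hCU0 hCe hT hNk hNe0 hNk'0.le hqr hrp hd hB0 ha0.le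
          hT10.le haT)
        exact mul_le_mul (hb1 _) (mul_le_mul (hE1 i hi _ (zero_memL N)) (hE0 i hi)
          (norm_nonneg _) hrp.le) (mul_nonneg (norm_nonneg _) (norm_nonneg _))
          (mul_nonneg hCU0 (mul_nonneg (div_nonneg hT0.le hNe0.le) ha0.le))
    have h1 : ∀ ν, ‖f ν‖ ≤ Cv * U * T * (r * Ce) * w ν := fun ν => by
      by_cases hν : ν ∈ N
      · rw [hfN ν hν, norm_mul, norm_mul]
        calc ‖bb ν‖ * (‖E i ν‖ * ‖Ep α Q (c i) ν‖) ≤ Cv * U * T * (r * (Ce * w ν)) :=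
              mul_le_mul (hb2 _) (mul_le_mul (hE1 i hi _ hν) (hE i hi _) (norm_nonneg _)
                hrp.le) (mul_nonneg (norm_nonneg _) (norm_nonneg _)) hCvT
          _ = _ := by ring
      · have h3 : f ν = 0 := by
          rw [hf]
          exact if_neg hν
        rw [h3, norm_zero]
        exact mul_nonneg (mul_nonneg hCvT (mul_nonneg hrp.le hCe)) (hw0 ν)
    have hcongr : (∑' ν : {ν : {ν : K // ν ∈ N} // ν ∉ S}, bb ν.1.1 *
        (E i ν.1.1 * Ep α Q (c i) ν.1.1)) = ∑' ν : {ν : {ν : K // ν ∈ N} // ν ∉ S}, f ν.1 :=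
      tsum_congr fun ν => (hfN _ ν.1.2).symm
    rw [hcongr]
    refine (tail N S f w
      (fun ν => ∀ v, ‖mc α ν v‖ ≤ W * bt α τ v) hw0 hws h00
      (mul_nonneg hCvT (mul_nonneg hrp.le hCe)) h1
      fun ν hν hν0 hPP => hν ((hmem ν).2 ⟨hν0, hPP⟩)).trans ?_
    exact num_tail hCU0 hCe hCz hT' (Real.rpow_nonneg (zero_le_one.trans hW1) _) hWk hz0 hd hr1
      hqe0.le ha0.le ha1 hB0.le hBT hDN hDN0 hqT htl

end Pool.Agent.H55.DM.QP
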